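import Mathlib
import Pool.Prelude.Def_F_c31e40fa
import Pool.Agent.Q79.MultiModulus2

set_option autoImplicit false

open Filter Topology

/-!
# The exact size of the modulus of local connectivity of the Multibrot sets at the scale `1 / n`

`M_n` outside the disc of radius `r_n = (1 - 1/n) n^(-1/(n-1)) = 1 - (1 + o(1)) log n / n` consists of
`n - 1` pieces, separated by the `n - 1` cusp rays.  Neighbouring pieces contain points of modulus
one at distance at most `2 π / (n - 1)`, but a continuum in `M_n` from one piece to the other has to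
come down to the radius `r_n`.  Conversely two points of `M_n` can always be joined by a continuum of
diameter at most `(1 + o(1)) |x - y| + (1 + o(1)) log n / n`.
-/

namespace Pool.Agent.Results.MP_fcb70f_an.CoarseModulusExact

/-- The infimum of the diameters of the continua in `A` that contain `x` and `y`. -/
noncomputable def joinDiam (A : Set ℂ) (x y : ℂ) : ℝ :=
  sInf {r : ℝ | ∃ S ⊆ A, IsCompact S ∧ IsConnected S ∧ x ∈ S ∧ y ∈ S ∧ Metric.diam S = r}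

/-- The modulus of local connectivity of `A`. -/
noncomputable def modulus (A : Set ℂ) (δ : ℝ) : ℝ :=
  sSup {r : ℝ | ∃ x ∈ A, ∃ y ∈ A, dist x y ≤ δ ∧ joinDiam A x y = r}

theorem result :
    -- points of neighbouring pieces
    (∀ n : ℕ, 3 ≤ n → ∃ x ∈ N62a1eb23.multibrotSet n, ∃ y ∈ N62a1eb23.multibrotSet n,
      ‖x‖ = 1 ∧ ‖y‖ = 1 ∧ dist x y ≤ 2 * Real.pi / ((n : ℝ) - 1) ∧
      ∀ S ⊆ N62a1eb23.multibrotSet n, IsConnected S → x ∈ S → y ∈ S →
        ∃ c ∈ S, ‖c‖ ≤ (1 - 1 / (n : ℝ)) * (n : ℝ) ^ (-(1 / ((n : ℝ) - 1)))) ∧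
    -- lower bound
    (∀ n : ℕ, 3 ≤ n → ∀ δ : ℝ, 2 * Real.pi / ((n : ℝ) - 1) ≤ δ →
      1 - (1 - 1 / (n : ℝ)) * (n : ℝ) ^ (-(1 / ((n : ℝ) - 1))) ≤
        modulus (N62a1eb23.multibrotSet n) δ) ∧
    -- upper bound
    (∀ n : ℕ, 2 ≤ n → ∀ δ : ℝ, 0 ≤ δ → modulus (N62a1eb23.multibrotSet n) δ ≤
      ((n : ℝ) / ((n : ℝ) - 1)) ^ 2 * (n : ℝ) ^ (1 / ((n : ℝ) - 1)) * δ +
        (Real.log n + 28) / ((n : ℝ) - 1)) ∧
    -- exact asymptotics
    (∀ δ : ℕ → ℝ, (∀ n : ℕ, 2 * Real.pi / ((n : ℝ) - 1) ≤ δ n) →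
      Tendsto (fun n : ℕ => δ n * n / Real.log n) atTop (𝓝 0) →
      Tendsto (fun n : ℕ => modulus (N62a1eb23.multibrotSet n) (δ n) * n / Real.log n)
        atTop (𝓝 1)) := by
  have hj : joinDiam = Pool.Agent.Q79.MM.joinDiam := rfl
  have hm : modulus = Pool.Agent.Q79.MM.modulus := rfl
  have hrr : ∀ n : ℕ, 2 ≤ n → Pool.Agent.H712R2.rr n =
      (1 - 1 / (n : ℝ)) * (n : ℝ) ^ (-(1 / ((n : ℝ) - 1))) := by
    intro n hn
    rw [Pool.Agent.H712R2.rr_eq hn, Pool.Agent.Q79.MM.sr_eq hn]; ring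
  refine ⟨?_, ?_, ?_, ?_⟩
  · intro n hn
    refine ⟨Pool.Agent.Q79.MM.pt n (-1), Pool.Agent.Q79.MM.centre_mem (by omega)
      (Pool.Agent.Q79.MM.pt_pow (by omega) (Or.inr rfl)), Pool.Agent.Q79.MM.pt n 1,
      Pool.Agent.Q79.MM.centre_mem (by omega) (Pool.Agent.Q79.MM.pt_pow (by omega) (Or.inl rfl)),
      Pool.Agent.Q79.MM.norm_pt _ _, Pool.Agent.Q79.MM.norm_pt _ _,
      Pool.Agent.Q79.MM.dist_pt (by omega), ?_⟩
    intro S hS hSc hx hy
    rw [← hrr n (by omega)]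
    exact Pool.Agent.Q79.MM.centres hn hSc.isPreconnected hS hx hy
  · intro n hn δ hδ
    rw [← hrr n (by omega), hm]
    exact Pool.Agent.Q79.MM.modulus_ge hn hδ
  · intro n hn δ hδ
    rw [hm]
    have h1 := Pool.Agent.Q79.MM.modulus_le hn hδ
    have h2 := Pool.Agent.Q79.MM.const_bound hn
    have hnr : (2:ℝ) ≤ n := by exact_mod_cast hn
    have h0 : 0 < (n:ℝ) - 1 := by linarith
    have h3 : Pool.Agent.Q79.MM.RR n / Pool.Agent.H712R2.rr n =
        ((n : ℝ) / ((n : ℝ) - 1)) ^ 2 * (n : ℝ) ^ (1 / ((n : ℝ) - 1)) := by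
      rw [hrr n hn, Real.rpow_neg (by linarith)]
      have h4 : (0:ℝ) < (n:ℝ) ^ (1 / ((n : ℝ) - 1)) := Real.rpow_pos_of_pos (by linarith) _
      unfold Pool.Agent.Q79.MM.RR
      field_simp
      ring
    rw [h3] at h1
    linarith
  · intro δ h1 h2
    rw [hm]
    exact Pool.Agent.Q79.MM.tendsto_modulus δ h1 h2

end Pool.Agent.Results.MP_fcb70f_an.CoarseModulusExact
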