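import Mathlib
import Pool.Prelude.Def_F_c31e40fa
import Pool.Agent.H13RP.Fin

set_option autoImplicit false

open Set MeasureTheory Complex Real N62a1eb23

namespace Pool.Agent.Results.MP_fcb70f_an.RationalHarmonicMeasure

open Pool.Agent.H713R2

/-- Harmonic measure of the Multibrot set of degree `d ≥ 3` at all rational points of the boundary
of its main component, i.e. at the parameters `a - a ^ d` for which the multiplier
`d * a ^ (d - 1)` of the fixed point `a` of `z ↦ z ^ d + a - a ^ d` is a root of unity, of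
order `q` say: for all small `ρ` and all `r > 1` close to `1`, the proportion of angles `θ` such
that `ψ (r e^{iθ})` is at distance `< ρ` from `a - a ^ d` lies between `exp (-(1 ± η) T)` with
`T = π (log d) √(2 ‖a‖ / ((d - 1) ρ))` if `q = 1` (cusps) and
`T = 2 π (log d) ‖a‖ ‖1 - d a ^ (d - 1)‖ / (q (d - 1) ρ)` if `q ≥ 2`. -/
theorem result (d : ℕ) (hd : 3 ≤ d) :
    (∃ ψ : ℂ → ℂ, IsExteriorMap (multibrotSet d) ψ) ∧
    (∀ q : ℕ, 1 ≤ q → ∃ a : ℂ, IsPrimitiveRoot ((d : ℂ) * a ^ (d - 1)) q) ∧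
    ∀ ψ : ℂ → ℂ, IsExteriorMap (multibrotSet d) ψ → ∀ (q : ℕ) (a : ℂ), 1 ≤ q →
      IsPrimitiveRoot ((d : ℂ) * a ^ (d - 1)) q → ∀ T : ℝ → ℝ,
      (T = if q = 1 then fun ρ => π * Real.log d * √(2 * ‖a‖ / ((d - 1) * ρ)) else
        fun ρ => 2 * π * Real.log d * ‖a‖ * ‖1 - d * a ^ (d - 1)‖ / (q * (d - 1) * ρ)) →
      ∀ η ∈ Ioo (0 : ℝ) 1, ∃ ρ₀ : ℝ, 0 < ρ₀ ∧ ∀ ρ ∈ Ioo 0 ρ₀, ∃ r₀ : ℝ, 1 < r₀ ∧
        ∀ r ∈ Ioo 1 r₀,
          Real.exp (-((1 + η) * T ρ)) ≤ (volume {θ ∈ Ioc 0 (2 * π) |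
            ‖ψ (r * Complex.exp (θ * I)) - (a - a ^ d)‖ < ρ}).toReal / (2 * π) ∧
          (volume {θ ∈ Ioc 0 (2 * π) |
            ‖ψ (r * Complex.exp (θ * I)) - (a - a ^ d)‖ < ρ}).toReal / (2 * π) ≤
            Real.exp (-((1 - η) * T ρ)) :=
  Pool.Agent.H13RP.rational_main d (by omega)

end Pool.Agent.Results.MP_fcb70f_an.RationalHarmonicMeasure
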