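import Mathlib
import Pool.Prelude.Def_F_c31e40fa
import Pool.Agent.Q79.MultiScales3

set_option autoImplicit false

/-!
# Multibrot sets are not uniformly linearly connected, at any scale

Let `ω` be an `n`-th root of unity with `|ω - 1| ≥ 1` and `c ^ (n - 1) = ω - 1`, so that the critical
orbit of `z ^ n + c` is `0, c, ω c, ω c, ...`.  At every scale `n ^ -(m + 1)` around `c` there is a
point `y` of `M_n` such that every connected subset of `M_n` which contains `c` and `y` has diameter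
at least `(1 - ε) (log n / 2 π) |y - c|`, for all `n ≥ n₀(ε)` (and `n₀` does not depend on the scale).
-/

namespace Pool.Agent.Results.MP_fcb70f_an.SmallScales

theorem result (ε : ℝ) (hε : 0 < ε) : ∃ n₀ : ℕ, ∀ n : ℕ, n₀ ≤ n → ∀ ω c : ℂ, ω ^ n = 1 →
    1 ≤ ‖ω - 1‖ → c ^ (n - 1) = ω - 1 →
    c ∈ N62a1eb23.multibrotSet n ∧ ∀ m : ℕ, 1 ≤ m →
      ∃ y ∈ N62a1eb23.multibrotSet n,
        1 / (2 * (n : ℝ)) ^ (m + 1) ≤ dist y c ∧ dist y c ≤ 30 / (n : ℝ) ^ (m + 1) ∧
        ∀ S ⊆ N62a1eb23.multibrotSet n, IsConnected S → c ∈ S → y ∈ S →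
          (1 - ε) * (Real.log n / (2 * Real.pi)) * dist y c ≤ Metric.diam S :=
  Pool.Agent.Q79.MS.scales ε hε

end Pool.Agent.Results.MP_fcb70f_an.SmallScales
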