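import Mathlib
import Pool.Prelude.Def_F_c31e40fa
import Pool.Agent.Q72.AC.D

set_option autoImplicit false

open Filter Topology Set Metric MeasureTheory Complex N62a1eb23

namespace Pool.Agent.Results.MP_fcb70f_an.TangentCone

/-- `U` is bounded and open, and the `p`-th iterate of `z ↦ z ^ d + c` is proper of degree at most
`d` from `U` onto a set which contains the closure of `U`. Polynomial-like maps of degree `d` have this
property. -/
def PL (d : ℕ) (c : ℂ) (p : ℕ) (U : Set ℂ) : Prop :=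
  IsOpen U ∧ Bornology.IsBounded U ∧ closure U ⊆ (fun z : ℂ => z ^ d + c)^[p] '' U ∧
    (∀ K ⊆ (fun z : ℂ => z ^ d + c)^[p] '' U, IsCompact K →
      IsCompact {z | z ∈ U ∧ (fun z : ℂ => z ^ d + c)^[p] z ∈ K}) ∧
    ∀ w ∈ (fun z : ℂ => z ^ d + c)^[p] '' U,
      {z | z ∈ U ∧ (fun z : ℂ => z ^ d + c)^[p] z = w}.encard ≤ d

/-- `z ↦ z ^ d + c` is renormalizable of period `p`. -/
def Ren (d : ℕ) (c : ℂ) (p : ℕ) : Prop :=
  ∃ U : Set ℂ, PL d c p U ∧ ∀ n : ℕ, (fun z : ℂ => z ^ d + c)^[n * p] 0 ∈ U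

/-- `z ↦ z ^ d + c` is renormalizable of period `p` with bounds `C`: `U` contains the discs of some
radius `r` about the points `f^[n p] 0`, and its image has diameter at most `C r`. -/
def Bounds (d : ℕ) (C : ℝ) (c : ℂ) (p : ℕ) : Prop :=
  ∃ (U : Set ℂ) (r : ℝ), PL d c p U ∧ 0 < r ∧
    (∀ n : ℕ, ball ((fun z : ℂ => z ^ d + c)^[n * p] 0) r ⊆ U) ∧
    ∀ z ∈ U, ∀ z' ∈ U,
      ‖(fun z : ℂ => z ^ d + c)^[p] z - (fun z : ℂ => z ^ d + c)^[p] z'‖ ≤ C * r

/-- The set `M` (the Multibrot set of degree `d`) surrounds `c`, up to the function `h`: there is no path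
`γ` with `γ 0 = c` and Lipschitz constant one, such that the distance from `γ t` to `M` is at least
`h t` for all small `t > 0`, and for every unit vector `e` there are points `z ≠ c` of `M`
arbitrarily close to `c` with `|(z - c) - |z - c| e| ≤ h |z - c|`. If this holds for `h t = ε t` for
all `ε > 0`, then the tangent cone (contingent cone) of `M` at `c` is the whole plane. -/
def Surr (d : ℕ) (c : ℂ) (h : ℝ → ℝ) : Prop :=
  (¬ ∃ (γ : ℝ → ℂ) (t₀ : ℝ), 0 < t₀ ∧ γ 0 = c ∧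
    (∀ s ∈ Icc 0 t₀, ∀ t ∈ Icc 0 t₀, ‖γ s - γ t‖ ≤ |s - t|) ∧
    ∀ t ∈ Ioc 0 t₀, h t ≤ infDist (γ t) (multibrotSet d)) ∧
  ∀ e : ℂ, ‖e‖ = 1 → ∀ δ : ℝ, 0 < δ →
    ∃ z ∈ multibrotSet d, 0 < ‖z - c‖ ∧ ‖z - c‖ < δ ∧ ‖(z - c) - ‖z - c‖ * e‖ ≤ h ‖z - c‖

/-- For every degree `d ≥ 3`: (1) The renormalizable parameters of period `p` which are not surrounded up to
`ε t` form a set of dimension at most `3 / (ε p)`. (2) The infinitely renormalizable parameters which
are not surrounded up to `ε t` for some `ε > 0` form a set of dimension zero. (3) If `c` has one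
renormalization of period `p` with bounds `C`, and `3 log (C + 3) < ε p log d`, then `c` is surrounded up
to `ε t`. (4) So `c` is surrounded up to `ε t` for all `ε > 0` if the bounds are subexponential in the
period for infinitely many periods. (5) For a priori bounds `C` and bounded relative periods,
`p_{k+1} / p_k ≤ τ log (p_{k+1} / p_k)`, `c` is surrounded up to `v t ^ (1 + b)` if
`b < 1 / (4 τ log (2 C))`. -/
theorem result : ∀ d : ℕ, 3 ≤ d →
    (∀ p : ℕ, 1 ≤ p → ∀ ε : ℝ, 0 < ε → ε ≤ 1 →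
      dimH {c : ℂ | Ren d c p ∧ ¬ Surr d c fun t => ε * t} ≤ ENNReal.ofReal (3 / (ε * p))) ∧
    dimH {c : ℂ | {p : ℕ | Ren d c p}.Infinite ∧ ∃ ε : ℝ, 0 < ε ∧
      ¬ Surr d c fun t => ε * t} = 0 ∧
    (∀ (c : ℂ) (p : ℕ) (C ε : ℝ), 1 ≤ p → Bounds d C c p → 0 < ε → ε ≤ 1 →
      3 * Real.log (C + 3) < ε * p * Real.log d → Surr d c fun t => ε * t) ∧
    (∀ c : ℂ, (∀ ε : ℝ, 0 < ε → {p : ℕ | Bounds d (Real.exp (ε * p)) c p}.Infinite) →
      ∀ ε : ℝ, 0 < ε → Surr d c fun t => ε * t) ∧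
    ∀ (c : ℂ) (p : ℕ → ℕ) (C τ : ℝ), 1 ≤ p 0 →
      (∀ k, p k < p (k + 1) ∧ p k ∣ p (k + 1) ∧ Bounds d C c (p k) ∧
        (p (k + 1) : ℝ) / p k ≤ τ * Real.log (p (k + 1) / p k)) →
      ∀ b v : ℝ, 0 < b → 0 < v → b * (4 * τ * Real.log (2 * C)) < 1 →
        Surr d c fun t => v * t ^ (1 + b) := by
  intro d hd3
  have hd : 2 ≤ d := by omega
  have hM : (multibrotSet d).Nonempty := Pool.Agent.Q72.AC.nonempty_multibrot d hd
  -- renormalizable in the sense of the library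
  have hren : ∀ {c : ℂ} {p : ℕ}, Ren d c p → Pool.Agent.Y736.RN.Ren d c p := by
    rintro c p ⟨U, hU, hn⟩
    refine ⟨U, hU, ?_, fun n _ => hn n⟩
    have h1 := hn 0
    simpa using h1
  -- no surrounding
  have hsurr : ∀ {c : ℂ} {h : ℝ → ℝ}, (¬ Surr d c h) →
      Pool.Agent.Q72.AC.Access (multibrotSet d) c h ∨
        ¬ Pool.Agent.Q72.AC.Directions (multibrotSet d) c h := by
    intro c h hs
    by_contra hcon
    push Not at hcon
    exact hs ⟨hcon.1, hcon.2⟩
  -- monotonicity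
  have hmono : ∀ {c : ℂ} {ε ε' : ℝ}, ε ≤ ε' → (Surr d c fun t => ε * t) →
      Surr d c fun t => ε' * t := by
    rintro c ε ε' hε ⟨h1, h2⟩
    refine ⟨?_, ?_⟩
    · rintro ⟨γ, t₀, ht₀, h0, h3, h4⟩
      exact h1 ⟨γ, t₀, ht₀, h0, h3, fun t ht =>
        (mul_le_mul_of_nonneg_right hε ht.1.le).trans (h4 t ht)⟩
    · intro e he δ hδ
      obtain ⟨z, hz, h3, h4, h5⟩ := h2 e he δ hδ
      exact ⟨z, hz, h3, h4, h5.trans (mul_le_mul_of_nonneg_right hε h3.le)⟩
  -- a missing sector gives access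
  have hdir : ∀ (c : ℂ) (ε : ℝ), 0 < ε → (¬ Surr d c fun t => ε * t) →
      ∃ ε' : ℝ, 0 < ε' ∧ Pool.Agent.Q72.AC.Access (multibrotSet d) c fun t => ε' * t := by
    intro c ε hε hs
    have hs' : ¬ Surr d c fun t => min ε 1 * t := fun h => hs (hmono (min_le_left _ _) h)
    rcases hsurr hs' with h | h
    · exact ⟨_, lt_min hε one_pos, h⟩
    · exact ⟨2 / 3 * min ε 1, by have := lt_min hε one_pos; positivity,
        Pool.Agent.Q72.AC.access_of_sector hM (lt_min hε one_pos) (min_le_right _ _) h⟩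
  -- one level
  have hlevel : ∀ (c : ℂ) (p : ℕ) (C ε : ℝ), 1 ≤ p → Bounds d C c p → 0 < ε → ε ≤ 1 →
      3 * Real.log (C + 3) < ε * p * Real.log d → Surr d c fun t => ε * t := by
    rintro c p C ε hp ⟨U, r, hU, hr, hball, hdiam⟩ hε hε1 hC
    have hc : c ∈ multibrotSet d := Pool.Agent.Q72.MR.ren_mem hp hU.2.1
      (fun n _ => hball n (mem_ball_self hr))
    have hCnn : 0 ≤ C := (norm_nonneg _).trans
      (Pool.Agent.Q72.AC.deriv_le' (d := d) hr hball hdiam 0)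
    have hlog : 0 ≤ Real.log (C + 3) := Real.log_nonneg (by linarith)
    by_contra hcon
    rcases hsurr hcon with h | h
    · exact Pool.Agent.Q72.AC.no_access_level hd hc hp hr hball hdiam hε
        (lt_of_le_of_lt (by linarith) hC) h
    · exact h (Pool.Agent.Q72.AC.directions_level hd hc hp hr hball hdiam hε hε1 hC)
  refine ⟨?_, ?_, hlevel, ?_, ?_⟩
  · intro p hp ε hε hε1
    have hp' : (0 : ℝ) < p := by exact_mod_cast hp
    have h1 : {c : ℂ | Ren d c p ∧ ¬ Surr d c fun t => ε * t} ⊆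
        {c | Pool.Agent.Y736.RN.Ren d c p ∧
          Pool.Agent.Q72.AC.Access (multibrotSet d) c fun t => ε * t} ∪
        {c | Pool.Agent.Y736.RN.Ren d c p ∧
          ¬ Pool.Agent.Q72.AC.Directions (multibrotSet d) c fun t => ε * t} := by
      rintro c ⟨h1, h2⟩
      rcases hsurr h2 with h | h
      · exact Or.inl ⟨hren h1, h⟩
      · exact Or.inr ⟨hren h1, h⟩
    refine (dimH_mono h1).trans ?_
    rw [dimH_union]
    refine max_le ((Pool.Agent.Q72.AC.dim_access hd hp hε).trans ?_)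
      (Pool.Agent.Q72.AC.dim_sector hd hp hε hε1)
    apply ENNReal.ofReal_le_ofReal
    gcongr
    norm_num
  · apply Pool.Agent.Q72.AC.dim_access_inf (d := d) hd
    rintro c ⟨h1, ε, hε, h2⟩
    exact ⟨h1.mono fun p hp => hren hp, hdir c ε hε h2⟩
  · intro c h ε hε
    have hL : 0 < Real.log d := Real.log_pos (by exact_mod_cast (by omega : 1 < d))
    obtain ⟨η, hη, k, hk⟩ := Pool.Agent.Q72.AC.level_of_exp hL (lt_min hε one_pos)
    obtain ⟨p, hB, hpk⟩ := (h η hη).exists_gt k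
    exact hmono (min_le_left _ _) (hlevel c p _ _ (by omega) hB (lt_min hε one_pos)
      (min_le_right _ _) (hk p hpk _ le_rfl (Real.exp_pos _).le))
  · intro c p C τ hp0 h b v hb hv hbA
    obtain ⟨U, r, hU, hr, hball, -⟩ := (h 0).2.2.1
    have hc : c ∈ multibrotSet d := Pool.Agent.Q72.MR.ren_mem hp0 hU.2.1
      (fun n _ => hball n (mem_ball_self hr))
    have hlev : ∀ k, ∃ r, Pool.Agent.Q72.MR.Lev d c C (p k) r := by
      intro k
      obtain ⟨U, r, hU, hr, hball, hdiam⟩ := (h k).2.2.1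
      exact ⟨r, U, hU.2.2.1, hr, hball, hdiam⟩
    have hpp : ∀ k, p k < p (k + 1) ∧ p k ∣ p (k + 1) := fun k => ⟨(h k).1, (h k).2.1⟩
    have hτ := fun k => (h k).2.2.2
    by_contra hcon
    rcases hsurr hcon with h1 | h1
    · exact Pool.Agent.Q72.AC.no_horn hd hc hp0 hpp hlev hτ hv hb hbA h1
    · obtain ⟨κ', hκ', h3⟩ := Pool.Agent.Q72.AC.access_of_horn hM hv hb.le h1
      exact Pool.Agent.Q72.AC.no_horn hd hc hp0 hpp hlev hτ hκ' hb hbA h3

end Pool.Agent.Results.MP_fcb70f_an.TangentCone
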